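import Pool.Agent.Helper61.TH.DefsD

/-!
# TH, block D4: from split maps to all maps
-/

set_option autoImplicit false

namespace Pool.Agent.Helper61.TH

open Pool.Agent.Helper86.DML
open Pool.Agent.Helper26.FU (MultiHom)

noncomputable section

variable {s : ℕ} {d : Fin s → ℕ}

/-- the word along `π` from `b` -/
def wd52 {k : ℕ} (A : Fin k → Fin s) (π : Fin k → Fin k) : ℕ → Fin k → List (Fin s)
  | 0, _ => []
  | n + 1, b => A b :: wd52 A π n (π b)

theorem wd_length52 {k : ℕ} (A : Fin k → Fin s) (π : Fin k → Fin k) (n : ℕ) (b : Fin k) :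
    (wd52 A π n b).length = n := by
  induction n generalizing b with
  | zero => rfl
  | succ n ih => rw [wd52, List.length_cons, ih]

theorem pmap_word_cons52 {R : Type*} [CommRing R] (c : Idx d → R) (a : Fin s) (w : List (Fin s)) (x : Fin 2 → R) :
    pmap (word c (a :: w)) x = pmap (form c a) (pmap (word c w) x) := by
  funext i
  show MvPolynomial.eval x (MvPolynomial.bind₁ (word c w) (form c a i)) = _
  exact MvPolynomial.eval₂Hom_bind₁ (RingHom.id _) _ _ _

theorem sysMap_eq52 {R : Type*} [CommRing R] (c : Idx d → R) {k : ℕ} (A : Fin k → Fin s) (π : Fin k → Fin k)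
    (x : Fin k → Fin 2 → R) (b : Fin k) : sysMap c A π x b = pmap (form c (A b)) (x (π b)) := by
  funext i
  exact (eval_form c (A b) i (x (π b))).symm

theorem iter52 {R : Type*} [CommRing R] (c : Idx d → R) {k : ℕ} (A : Fin k → Fin s) (π : Fin k → Fin k)
    (x : Fin k → Fin 2 → R) (n : ℕ) (b : Fin k) :
    (sysMap c A π)^[n] x b = pmap (word c (wd52 A π n b)) (x (π^[n] b)) := by
  induction n generalizing b with
  | zero =>
    funext i
    show x b i = MvPolynomial.eval (x b) (MvPolynomial.X i)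
    rw [MvPolynomial.eval_X]
  | succ n ih =>
    rw [Function.iterate_succ_apply', sysMap_eq52, ih, Function.iterate_succ_apply, wd52, pmap_word_cons52]

theorem iter_fix52 {R : Type*} [CommRing R] (c : Idx d → R) {k : ℕ} (A : Fin k → Fin s) (π : Fin k → Fin k)
    (x : Fin k → Fin 2 → R) (L m : ℕ) (b : Fin k) (hb : π^[L] b = b) :
    (sysMap c A π)^[L * m] x b = (pmap (word c (wd52 A π L b)))^[m] (x b) := by
  induction m with
  | zero => rfl
  | succ m ih =>
    rw [Nat.mul_succ, Nat.add_comm, Function.iterate_add_apply, iter52, hb, ih, Function.iterate_succ_apply']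

theorem idem52 {k : ℕ} (π : Fin k → Fin k) (b : Fin k) : π^[k.factorial] (π^[k.factorial] b) = π^[k.factorial] b := by
  obtain ⟨i, j, hij, h⟩ : ∃ i j : Fin (k + 1), i < j ∧ π^[(i : ℕ)] b = π^[(j : ℕ)] b := by
    have h1 := Fintype.exists_ne_map_eq_of_card_lt (fun i : Fin (k + 1) => π^[(i : ℕ)] b) (by simp)
    obtain ⟨i, j, hne, h⟩ := h1
    rcases lt_or_gt_of_ne hne with h2 | h2
    · exact ⟨i, j, h2, h⟩
    · exact ⟨j, i, h2, h.symm⟩
  have hij' : (i : ℕ) < j := hij
  have hj : (j : ℕ) ≤ k := by omega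
  obtain ⟨l, hl⟩ : ∃ l, (j : ℕ) = i + l := ⟨j - i, by omega⟩
  have hl0 : 0 < l := by omega
  have hk : k ≤ k.factorial := Nat.self_le_factorial k
  have h3 : ∀ n, (i : ℕ) ≤ n → π^[n + l] b = π^[n] b := by
    intro n hn
    obtain ⟨u, rfl⟩ := Nat.exists_eq_add_of_le hn
    have e1 : (i : ℕ) + u + l = u + (i + l) := by ring
    have e2 : (i : ℕ) + u = u + i := by ring
    rw [e1, Function.iterate_add_apply, ← hl, ← h, e2, Function.iterate_add_apply]
  have h4 : ∀ m n, (i : ℕ) ≤ n → π^[n + l * m] b = π^[n] b := by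
    intro m
    induction m with
    | zero => intro n _; rfl
    | succ m ih =>
      intro n hn
      rw [Nat.mul_succ, ← Nat.add_assoc, h3 _ (by omega), ih n hn]
  obtain ⟨q, hq⟩ : l ∣ k.factorial := Nat.dvd_factorial hl0 (by omega)
  rw [← Function.iterate_add_apply]
  conv_lhs => rw [hq]
  rw [← hq]
  have h5 := h4 q k.factorial (by omega)
  rw [← hq] at h5
  exact h5

theorem form_hom52 (c : Idx d → ℂ) (a : Fin s) (i : Fin 2) : (form c a i).IsHomogeneous (d a) := by
  refine MvPolynomial.IsHomogeneous.sum _ _ _ fun j _ => ?_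
  have h1 : (MvPolynomial.C (c ⟨a, (i, j)⟩) * MvPolynomial.X 0 ^ (j : ℕ) * MvPolynomial.X 1 ^ (d a - j) :
      MvPolynomial (Fin 2) ℂ).IsHomogeneous (0 + (j : ℕ) + (d a - j)) :=
    ((MvPolynomial.isHomogeneous_C _ _).mul (MvPolynomial.isHomogeneous_X_pow _ _)).mul
      (MvPolynomial.isHomogeneous_X_pow _ _)
  have h2 : 0 + (j : ℕ) + (d a - j) = d a := by omega
  rwa [h2] at h1

theorem word_hom52 (c : Idx d → ℂ) (dm : ℕ) (hdm : ∀ a, d a ≤ dm) (w : List (Fin s)) :
    ∃ D, D ≤ dm ^ w.length ∧ ∀ i, (word c w i).IsHomogeneous D := by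
  induction w with
  | nil => exact ⟨1, by simp, fun i => MvPolynomial.isHomogeneous_X _ _⟩
  | cons a w ih =>
    obtain ⟨D, hD, h⟩ := ih
    refine ⟨D * d a, ?_, fun i => ?_⟩
    · rw [List.length_cons, pow_succ]
      exact Nat.mul_le_mul hD (hdm a)
    · exact (form_hom52 c a i).aeval (word c w) h

/-- the weights of the variables -/
def wt52 (k : ℕ) (q : Fin k × Fin 2) : Fin k → ℕ := Pi.single q.1 1

theorem weight52 {k : ℕ} (t : Fin k × Fin 2 →₀ ℕ) (b : Fin k) : Finsupp.weight (wt52 k) t b = ∑ i, t (b, i) := by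
  rw [Finsupp.weight_eq_sum, Finset.sum_apply, Fintype.sum_prod_type, Finset.sum_eq_single b]
  · refine Finset.sum_congr rfl fun i _ => ?_
    simp [wt52]
  · intro b' _ hb
    refine Finset.sum_eq_zero fun i _ => ?_
    simp [wt52, Pi.single_eq_of_ne hb.symm]
  · intro h
    exact absurd (Finset.mem_univ b) h

theorem rename_hom52 {k : ℕ} (F : MvPolynomial (Fin 2) ℂ) (D : ℕ) (hF : F.IsHomogeneous D) (c : Fin k) :
    MvPolynomial.IsWeightedHomogeneous (wt52 k) (MvPolynomial.rename (fun j => (c, j)) F) (Pi.single c D) := by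
  intro t ht
  obtain ⟨u, hu, hu0⟩ := MvPolynomial.coeff_rename_ne_zero _ _ _ ht
  have h1 := hF hu0
  subst hu
  rw [Finsupp.weight_apply, Finsupp.sum_mapDomain_index (h := fun i c => c • wt52 k i) (fun _ => zero_smul _ _)
    (fun _ _ _ => add_smul _ _ _)]
  change Finsupp.weight (fun j => wt52 k (c, j)) u = Pi.single c D
  rw [Finsupp.weight_eq_sum] at h1 ⊢
  funext b
  rw [Finset.sum_apply]
  by_cases hb : b = c
  · subst hb
    simp only [wt52, Pi.smul_apply, Pi.single_eq_same]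
    exact h1
  · simp [wt52, Pi.single_eq_of_ne hb]

/-- the substitution -/
def sub52 {k : ℕ} (H : Fin k → Fin 2 → MvPolynomial (Fin 2) ℂ) (e : Fin k → Fin k) (G : MvPolynomial (Fin k × Fin 2) ℂ) :
    MvPolynomial (Fin k × Fin 2) ℂ :=
  MvPolynomial.bind₁ (fun q => MvPolynomial.rename (fun j => (e q.1, j)) (H q.1 q.2)) G

theorem eval_sub52 {k : ℕ} (H : Fin k → Fin 2 → MvPolynomial (Fin 2) ℂ) (e : Fin k → Fin k)
    (G : MvPolynomial (Fin k × Fin 2) ℂ) (x : Fin k → Fin 2 → ℂ) :
    MvPolynomial.eval (fun q => x q.1 q.2) (sub52 H e G) =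
      MvPolynomial.eval (fun q => pmap (H q.1) (x (e q.1)) q.2) G := by
  unfold sub52
  have h1 : MvPolynomial.eval (fun q : Fin k × Fin 2 => x q.1 q.2) (MvPolynomial.bind₁ (fun q => MvPolynomial.rename
      (fun j => (e q.1, j)) (H q.1 q.2)) G) = MvPolynomial.eval (pmap (fun q : Fin k × Fin 2 => MvPolynomial.rename
      (fun j => (e q.1, j)) (H q.1 q.2)) (fun q => x q.1 q.2)) G := MvPolynomial.eval₂Hom_bind₁ (RingHom.id _) _ _ _
  rw [h1]
  congr 2
  funext q
  unfold pmap
  rw [MvPolynomial.eval_rename]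
  rfl

theorem sub_multi52 {k : ℕ} (H : Fin k → Fin 2 → MvPolynomial (Fin 2) ℂ) (e : Fin k → Fin k) (D : Fin k → ℕ)
    (hH : ∀ b i, (H b i).IsHomogeneous (D b)) (G : MvPolynomial (Fin k × Fin 2) ℂ) (hG : MultiHom G) :
    MultiHom (sub52 H e G) := by
  obtain ⟨g, hg⟩ := hG
  have key : MvPolynomial.IsWeightedHomogeneous (wt52 k) (sub52 H e G) (∑ b, g b • Pi.single (e b) (D b)) := by
    unfold sub52
    rw [MvPolynomial.bind₁, MvPolynomial.aeval_def, MvPolynomial.eval₂_eq']
    refine MvPolynomial.IsWeightedHomogeneous.sum _ _ _ fun t ht => ?_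
    have h1 : MvPolynomial.IsWeightedHomogeneous (wt52 k) (∏ q, MvPolynomial.rename (fun j => (e q.1, j)) (H q.1 q.2) ^ t q)
        (∑ q : Fin k × Fin 2, t q • Pi.single (e q.1) (D q.1)) :=
      MvPolynomial.IsWeightedHomogeneous.prod _ _ _ fun q _ => (rename_hom52 _ _ (hH _ _) _).pow _
    have h2 : (∑ q : Fin k × Fin 2, t q • (Pi.single (e q.1) (D q.1) : Fin k → ℕ)) =
        ∑ b, g b • Pi.single (e b) (D b) := by
      rw [Fintype.sum_prod_type]
      refine Finset.sum_congr rfl fun b _ => ?_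
      rw [← hg t ht b, Finset.sum_smul]
    rw [h2] at h1
    exact h1.C_mul _
  refine ⟨∑ b, g b • Pi.single (e b) (D b), fun t ht b => ?_⟩
  rw [← weight52, key (MvPolynomial.mem_support_iff.1 ht)]

theorem sub_deg52 {k : ℕ} (H : Fin k → Fin 2 → MvPolynomial (Fin 2) ℂ) (e : Fin k → Fin k) (N : ℕ)
    (hH : ∀ b i, (H b i).totalDegree ≤ N) (G : MvPolynomial (Fin k × Fin 2) ℂ) (δ : ℕ) (hG : G.totalDegree ≤ δ) :
    (sub52 H e G).totalDegree ≤ δ * N := by
  unfold sub52
  rw [MvPolynomial.bind₁, MvPolynomial.aeval_def, MvPolynomial.eval₂_eq']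
  refine MvPolynomial.totalDegree_finsetSum_le fun t ht => ?_
  refine (MvPolynomial.totalDegree_mul _ _).trans ?_
  have h0 : (algebraMap ℂ (MvPolynomial (Fin k × Fin 2) ℂ) (MvPolynomial.coeff t G)).totalDegree = 0 :=
    MvPolynomial.totalDegree_C _
  rw [h0, zero_add]
  refine (MvPolynomial.totalDegree_finsetProd _ _).trans ?_
  calc ∑ q, (MvPolynomial.rename (fun j => (e q.1, j)) (H q.1 q.2) ^ t q).totalDegree
      ≤ ∑ q, t q * N := Finset.sum_le_sum fun q _ => (MvPolynomial.totalDegree_pow _ _).trans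
        (Nat.mul_le_mul_left _ ((MvPolynomial.totalDegree_rename_le _ _).trans (hH _ _)))
    _ = (∑ q, t q) * N := (Finset.sum_mul _ _ _).symm
    _ ≤ δ * N := by
      refine Nat.mul_le_mul_right _ (le_trans ?_ hG)
      have h1 := MvPolynomial.le_totalDegree ht
      rwa [Finsupp.sum_fintype _ _ (fun _ => rfl)] at h1

/-- **D4**: from split maps to all maps. -/
theorem blockD4 (c : Idx d → ℂ) (dm : ℕ) (hdm : ∀ a, d a ≤ dm) (hdm1 : 1 ≤ dm) (k W Q B δ : ℕ)
    (α : Fin k → Fin 2 → ℂ)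
    (h : ∀ w : Fin k → List (Fin s), (∀ b, (w b).length = k.factorial) →
      Dich k W Q B (δ * dm ^ (2 * k.factorial)) (fun m b => (pmap (word c (w b)))^[m] (α b)))
    (A : Fin k → Fin s) (π : Fin k → Fin k) :
    Dich k (k.factorial * (1 + W)) (k.factorial * Q) B δ (fun m => (sysMap c A π)^[m] α) := by
  intro G hG hGδ r
  set L := k.factorial with hL
  have hL0 : 0 < L := Nat.factorial_pos k
  -- the remainder and the quotient of `r`
  obtain ⟨r₁, r₂, hr₁, hr⟩ : ∃ r₁ r₂, r₁ < L ∧ r = L * r₂ + r₁ :=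
    ⟨r % L, r / L, Nat.mod_lt _ hL0, (Nat.div_add_mod r L).symm⟩
  set H : Fin k → Fin 2 → MvPolynomial (Fin 2) ℂ := fun b => word c (wd52 A π (L + r₁) b) with hH
  set e : Fin k → Fin k := fun b => π^[L + r₁] b with he
  choose D hD hDh using fun b => word_hom52 c dm hdm (wd52 A π (L + r₁) b)
  have hdeg : ∀ b i, (H b i).totalDegree ≤ dm ^ (2 * L) := by
    intro b i
    refine ((hDh b i).totalDegree_le).trans ((hD b).trans ?_)
    rw [wd_length52]
    exact Nat.pow_le_pow_right hdm1 (by omega)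
  have hG' := sub_multi52 H e D hDh G hG
  have hd' := sub_deg52 H e _ hdeg G δ hGδ
  have hfix : ∀ b, π^[L] (e b) = e b := by
    intro b
    have h1 : e b = π^[L] (π^[r₁] b) := by rw [he, ← Function.iterate_add_apply]
    rw [h1]
    exact idem52 π _
  have key : ∀ M, MvPolynomial.eval (fun q => (sysMap c A π)^[L * (M + 1) + r₁] α q.1 q.2) G =
      MvPolynomial.eval (fun q : Fin k × Fin 2 => (pmap (word c (wd52 A π L q.1)))^[M] (α q.1) q.2) (sub52 H e G) := by
    intro M
    rw [eval_sub52 H e G (fun b => (pmap (word c (wd52 A π L b)))^[M] (α b))]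
    congr 2
    funext q
    have e1 : L * (M + 1) + r₁ = (L + r₁) + L * M := by ring
    rw [e1, Function.iterate_add_apply, iter52]
    show _ = pmap (word c (wd52 A π (L + r₁) q.1)) ((pmap (word c (wd52 A π L (e q.1))))^[M] (α (e q.1))) q.2
    rw [← iter_fix52 c A π α L M (e q.1) (hfix q.1)]
  have h1 := h (fun b => wd52 A π L b) (fun b => wd_length52 A π L b) (sub52 H e G) hG' hd' r₂
  have e2 : ∀ m, L * (1 + W) + r + L * Q * m = L * ((W + r₂ + Q * m) + 1) + r₁ := by
    intro m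
    rw [hr]
    ring
  simp only [e2, key]
  exact h1

end

end Pool.Agent.Helper61.TH
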